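import Mathlib
import Pool.Agent.E8helper11.FZ.Stm

/-!
# The numbers in the disproof of monotonicity of percolation with constant freezing
-/

set_option autoImplicit false

namespace Pool.Agent.E8helper44.FZ

open Finset Pool.Agent.E8helper11.FZ

/-- A factor of the product. -/
theorem factor_le (N : ℕ) (hN : 1 ≤ N) :
    (1 + 1 / (50 * ((N : ℝ) + 1))) ^ 50 ≤ ((N : ℝ) + 1) / N := by
  have hN0 : (0 : ℝ) < N := by exact_mod_cast hN
  have h1 : (1 + 1 / (50 * ((N : ℝ) + 1))) ≤ Real.exp (1 / (50 * ((N : ℝ) + 1))) := by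
    have := Real.add_one_le_exp (1 / (50 * ((N : ℝ) + 1)))
    linarith
  have h2 : (1 + 1 / (50 * ((N : ℝ) + 1))) ^ 50 ≤ Real.exp (1 / ((N : ℝ) + 1)) := by
    calc (1 + 1 / (50 * ((N : ℝ) + 1))) ^ 50
        ≤ (Real.exp (1 / (50 * ((N : ℝ) + 1)))) ^ 50 := by
          apply pow_le_pow_left₀ _ h1
          positivity
      _ = Real.exp (1 / ((N : ℝ) + 1)) := by
          rw [← Real.exp_nat_mul]
          congr 1
          field_simp
          norm_num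
  have h3 : (N : ℝ) / (N + 1) ≤ Real.exp (-(1 / ((N : ℝ) + 1))) := by
    have := Real.add_one_le_exp (-(1 / ((N : ℝ) + 1)))
    have e : (N : ℝ) / (N + 1) = -(1 / ((N : ℝ) + 1)) + 1 := by
      field_simp
      ring
    rw [e]
    exact this
  have h4 : Real.exp (1 / ((N : ℝ) + 1)) ≤ ((N : ℝ) + 1) / N := by
    rw [Real.exp_neg] at h3
    have h5 : (0 : ℝ) < (N : ℝ) / (N + 1) := by positivity
    have h6 := inv_anti₀ h5 h3
    rw [inv_inv, inv_div] at h6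
    exact h6
  exact h2.trans h4

theorem prod_pow_le (N : ℕ) (hN : 1 ≤ N) :
    (∏ r ∈ Icc 2 N, (1 + 1 / (50 * (r : ℝ)))) ^ 50 ≤ N := by
  induction N, hN using Nat.le_induction with
  | base => simp
  | succ n hn ih =>
    rw [Finset.prod_Icc_succ_top (by omega), mul_pow]
    have hn0 : (0 : ℝ) < n := by exact_mod_cast hn
    have h := factor_le n hn
    have h0 : (0 : ℝ) ≤ (1 + 1 / (50 * ((n : ℝ) + 1))) ^ 50 := by positivity
    push_cast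
    calc _ ≤ (n : ℝ) * (((n : ℝ) + 1) / n) := mul_le_mul ih h h0 hn0.le
      _ = (n : ℝ) + 1 := by field_simp

theorem prod_le_four (N : ℕ) (hN : 1 ≤ N) (hN2 : N ≤ 2 ^ 69) :
    ∏ r ∈ Icc 2 N, (1 + 1 / (50 * (r : ℝ))) ≤ 4 := by
  have h := prod_pow_le N hN
  have h2 : (N : ℝ) ≤ 4 ^ 50 := by
    have : (N : ℝ) ≤ 2 ^ 69 := by exact_mod_cast hN2
    refine this.trans ?_
    norm_num
  have h3 := h.trans h2
  exact le_of_pow_le_pow_left₀ (by norm_num) (by norm_num) h3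

theorem prod_le_twelve (N : ℕ) (hN : 1 ≤ N) (hN2 : N ≤ 2 ^ 69) :
    ∏ r ∈ Icc 2 N, (1 + 2 * (2 + (50 / (N : ℝ)) * ((r : ℝ) + 2)) / ((r : ℝ) * 200)) ≤ 12 := by
  have hN0 : (0 : ℝ) < N := by exact_mod_cast hN
  have h1 : ∀ r ∈ Icc 2 N, (1 + 2 * (2 + (50 / (N : ℝ)) * ((r : ℝ) + 2)) / ((r : ℝ) * 200)) ≤
      (1 + 1 / (50 * (r : ℝ))) * (1 + 1 / (N : ℝ)) := by
    intro r hr
    rw [mem_Icc] at hr
    have hr2 : (2 : ℝ) ≤ r := by exact_mod_cast hr.1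
    have e1 : 2 * (2 + (50 / (N : ℝ)) * ((r : ℝ) + 2)) / ((r : ℝ) * 200) =
        1 / (50 * (r : ℝ)) + (1 / (2 * (N : ℝ))) * (((r : ℝ) + 2) / r) := by
      field_simp
      ring
    have e2 : ((r : ℝ) + 2) / r ≤ 2 := by
      rw [div_le_iff₀ (by linarith)]
      linarith
    have e3 : (1 / (2 * (N : ℝ))) * (((r : ℝ) + 2) / r) ≤ (1 / (2 * (N : ℝ))) * 2 :=
      mul_le_mul_of_nonneg_left e2 (by positivity)
    have e4 : (1 / (2 * (N : ℝ))) * 2 = 1 / (N : ℝ) := by field_simp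
    have e5 : 0 ≤ 1 / (50 * (r : ℝ)) * (1 / (N : ℝ)) := by positivity
    rw [e1]
    nlinarith
  have h2 : ∏ r ∈ Icc 2 N, (1 + 2 * (2 + (50 / (N : ℝ)) * ((r : ℝ) + 2)) / ((r : ℝ) * 200)) ≤
      ∏ r ∈ Icc 2 N, ((1 + 1 / (50 * (r : ℝ))) * (1 + 1 / (N : ℝ))) := by
    apply Finset.prod_le_prod _ h1
    intro r _
    positivity
  refine h2.trans ?_
  rw [Finset.prod_mul_distrib, Finset.prod_const]
  have h3 : (1 + 1 / (N : ℝ)) ^ (Icc 2 N).card ≤ 3 := by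
    have h4 : (1 + 1 / (N : ℝ)) ^ (Icc 2 N).card ≤ (1 + 1 / (N : ℝ)) ^ N := by
      apply pow_le_pow_right₀
      · have : 0 ≤ 1 / (N : ℝ) := by positivity
        linarith
      · simp
    have h5 : (1 + 1 / (N : ℝ)) ≤ Real.exp (1 / (N : ℝ)) := by
      have := Real.add_one_le_exp (1 / (N : ℝ))
      linarith
    have h6 : (1 + 1 / (N : ℝ)) ^ N ≤ Real.exp 1 := by
      calc (1 + 1 / (N : ℝ)) ^ N ≤ (Real.exp (1 / (N : ℝ))) ^ N := by
            apply pow_le_pow_left₀ (by positivity) h5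
        _ = Real.exp 1 := by
            rw [← Real.exp_nat_mul]
            congr 1
            field_simp
    have h7 := Real.exp_one_lt_d9
    linarith
  have h8 := prod_le_four N hN hN2
  have h9 : 0 ≤ ∏ r ∈ Icc 2 N, (1 + 1 / (50 * (r : ℝ))) := by
    apply Finset.prod_nonneg
    intro r _
    positivity
  have h10 : (0 : ℝ) ≤ (1 + 1 / (N : ℝ)) ^ (Icc 2 N).card := by positivity
  calc _ ≤ (4 : ℝ) * 3 := mul_le_mul h8 h3 h10 (by norm_num)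
    _ = 12 := by norm_num

theorem small_pow : (1 + ((1 : ℝ) / 2 ^ 37) / (2 * ((200 : ℕ) : ℝ) + 2)) ^ (-((2 ^ 60 : ℕ) : ℤ)) ≤
    1 / 2 ^ 72 := by
  rw [zpow_neg, zpow_natCast, ← one_div]
  apply one_div_le_one_div_of_le (by positivity)
  have hx : (1 : ℝ) + 1 / 2 ^ 46 ≤ (1 + ((1 : ℝ) / 2 ^ 37) / (2 * ((200 : ℕ) : ℝ) + 2)) := by
    norm_num
  have h1 : (2 : ℝ) ≤ (1 + 1 / 2 ^ 46) ^ (2 ^ 46 : ℕ) := by
    have h := one_add_mul_le_pow (a := (1 : ℝ) / 2 ^ 46) (by norm_num) (2 ^ 46)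
    have e : (1 : ℝ) + ((2 ^ 46 : ℕ) : ℝ) * (1 / 2 ^ 46) = 2 := by
      push_cast
      norm_num
    rw [e] at h
    exact h
  have h2 : ((1 : ℝ) + 1 / 2 ^ 46) ^ (2 ^ 60 : ℕ) ≤
      (1 + ((1 : ℝ) / 2 ^ 37) / (2 * ((200 : ℕ) : ℝ) + 2)) ^ (2 ^ 60 : ℕ) :=
    pow_le_pow_left₀ (by positivity) hx _
  refine le_trans ?_ h2
  have e : (2 ^ 60 : ℕ) = 2 ^ 46 * 2 ^ 14 := by norm_num
  rw [e, pow_mul]
  have h3 : (2 : ℝ) ^ (2 ^ 14 : ℕ) ≤ ((1 + 1 / 2 ^ 46) ^ (2 ^ 46 : ℕ)) ^ (2 ^ 14 : ℕ) :=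
    pow_le_pow_left₀ (by norm_num) h1 _
  refine le_trans ?_ h3
  exact pow_le_pow_right₀ (by norm_num) (by norm_num)

theorem num : S_NUM := by
  obtain ⟨N, hNdef⟩ : ∃ N : ℕ, N = (2 * 2 ^ 60 + 1) * (200 + 1) := ⟨_, rfl⟩
  have hN1 : 1 ≤ N := by rw [hNdef]; norm_num
  have hN2 : N ≤ 2 ^ 69 := by rw [hNdef]; norm_num
  have hN0 : (0 : ℝ) < N := by exact_mod_cast hN1
  have hN3 : (N : ℝ) ≤ 2 ^ 69 := by exact_mod_cast hN2
  have hN4 : (2 : ℝ) ^ 60 ≤ N := by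
    rw [hNdef]
    push_cast
    norm_num
  refine ⟨2 ^ 60, 200, 50 / (N : ℝ), 1 / 2 ^ 37, by norm_num, by norm_num, by positivity, ?_, ?_⟩
  · rw [div_lt_div_iff₀ hN0 (by positivity)]
    have : (50 : ℝ) * 2 ^ 37 < 2 ^ 60 := by norm_num
    linarith
  · rw [← hNdef]
    have hs := small_pow
    have h2 : (2 * ((1 : ℝ) / 2 ^ 37) / (1 + 2 * (1 / 2 ^ 37))) ^ 2 ≤ 1 / 2 ^ 72 := by norm_num
    have hP := prod_le_twelve N hN1 hN2
    have hPpos : 0 < ∏ r ∈ Icc 2 N,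
        (1 + 2 * (2 + (50 / (N : ℝ)) * ((r : ℝ) + 2)) / ((r : ℝ) * 200)) := by
      apply Finset.prod_pos
      intro r _
      positivity
    have hprod : (1 : ℝ) / 12 ≤ ∏ r ∈ Icc 2 N,
        (1 + 2 * (2 + (50 / (N : ℝ)) * ((r : ℕ) + 2)) / ((r : ℕ) * ((200 : ℕ) : ℝ)))⁻¹ := by
      rw [Finset.prod_inv_distrib]
      have := inv_anti₀ hPpos hP
      push_cast
      rw [one_div]
      exact this
    have hα : (3 : ℝ) ≥ 2 + 3 * (50 / (N : ℝ)) := by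
      have : 50 / (N : ℝ) ≤ 50 / 2 ^ 60 := div_le_div_of_nonneg_left (by norm_num) (by positivity) hN4
      have h50 : (50 : ℝ) / 2 ^ 60 ≤ 1 / 3 := by norm_num
      linarith
    have hα2 : (50 / (N : ℝ)) / 3 ≤ (50 / (N : ℝ)) / (2 + 3 * (50 / (N : ℝ))) := by
      apply div_le_div_of_nonneg_left (by positivity) (by positivity) hα
    have hα3 : (1 : ℝ) / 2 ^ 69 ≤ 1 / N := one_div_le_one_div_of_le hN0 hN3
    have hR : (1 : ℝ) / 2 ^ 69 ≤ (50 / (N : ℝ)) / (2 + 3 * (50 / (N : ℝ))) * ∏ r ∈ Icc 2 N,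
        (1 + 2 * (2 + (50 / (N : ℝ)) * ((r : ℕ) + 2)) / ((r : ℕ) * ((200 : ℕ) : ℝ)))⁻¹ := by
      calc (1 : ℝ) / 2 ^ 69 ≤ 1 / N := hα3
        _ ≤ (50 / (N : ℝ)) / 3 * (1 / 12) := by
            rw [div_div, div_mul_div_comm, div_le_div_iff₀ hN0 (by positivity)]
            nlinarith
        _ ≤ _ := mul_le_mul hα2 hprod (by norm_num) (by positivity)
    refine lt_of_lt_of_le ?_ hR
    have h3 : (1 : ℝ) / 2 ^ 72 + 1 / 2 ^ 72 < 1 / 2 ^ 69 := by norm_num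
    calc _ ≤ (1 : ℝ) / 2 ^ 72 + 1 / 2 ^ 72 := add_le_add hs h2
      _ < _ := h3

end Pool.Agent.E8helper44.FZ
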